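import Mathlib

namespace Pool.Agent.N467.FFChordal

/-- A graph is chordal if every cycle of length at least four (an injective homomorphism `f` from the
cycle graph on `l ≥ 4` vertices) has a chord: an edge joining two non-consecutive vertices. -/
def IsChordal {V : Type} (G : SimpleGraph V) : Prop :=
  ∀ l : ℕ, 4 ≤ l → ∀ f : SimpleGraph.cycleGraph l →g G, Function.Injective f →
    ∃ i j : Fin l, i ≠ j ∧ ¬ (SimpleGraph.cycleGraph l).Adj i j ∧ G.Adj (f i) (f j)

/-- `c` is the First-Fit colouring of `G` for the ordering `e 0, e 1, …` of the vertices: the colour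
`c i` of the vertex `e i` is the least positive integer which is not the colour of a neighbour `e j`
with `j < i`. -/
def IsFirstFit {n : ℕ} (G : SimpleGraph (Fin n)) (e : Equiv.Perm (Fin n)) (c : Fin n → ℕ) : Prop :=
  ∀ i, IsLeast {k : ℕ | 1 ≤ k ∧ ∀ j < i, G.Adj (e j) (e i) → c j ≠ k} (c i)

/-- The First-Fit chromatic number: the largest number of colours used by First-Fit, over all
orderings of the vertices. -/
noncomputable def chiFF {n : ℕ} (G : SimpleGraph (Fin n)) : ℕ :=
  sSup {t : ℕ | ∃ (e : Equiv.Perm (Fin n)) (c : Fin n → ℕ),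
    IsFirstFit G e c ∧ t = (Set.range c).ncard}

end Pool.Agent.N467.FFChordal
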