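import Pool.Agent.N467.FFChordal.Defs

/-!
The graph: the binomial tree with `2 ^ d` vertices, every vertex replaced by a clique of
size `m = k / 2`, together with a disjoint clique of size `k` and isolated vertices. First-Fit uses
at least `m * (d + 1)` colours on it.
-/

namespace Pool.Agent.N467.FFChordal

/-! ### walls -/

/-- A wall on a graph. -/
structure IsWall {V : Type} (G : SimpleGraph V) (L : V → ℕ) : Prop where
  pos : ∀ v, 1 ≤ L v
  indep : ∀ u v, G.Adj u v → L u ≠ L v
  low : ∀ v k, 1 ≤ k → k < L v → ∃ w, G.Adj w v ∧ L w = k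

lemma chiFF_bdd {n : ℕ} (G : SimpleGraph (Fin n)) :
    BddAbove {t : ℕ | ∃ (e : Equiv.Perm (Fin n)) (c : Fin n → ℕ),
      IsFirstFit G e c ∧ t = (Set.range c).ncard} := by
  refine ⟨n, ?_⟩
  rintro t ⟨e, c, -, rfl⟩
  calc (Set.range c).ncard = (c '' Set.univ).ncard := by rw [Set.image_univ]
    _ ≤ (Set.univ : Set (Fin n)).ncard := Set.ncard_image_le Set.finite_univ
    _ = n := by simp [Set.ncard_univ]

lemma wall_le {n : ℕ} {G : SimpleGraph (Fin n)} {L : Fin n → ℕ} (hL : IsWall G L) (v : Fin n) :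
    L v ≤ chiFF G := by
  set e := Tuple.sort L with he
  have hmono : Monotone (L ∘ e) := Tuple.monotone_sort L
  have hFF : IsFirstFit G e (L ∘ e) := by
    intro i
    refine ⟨⟨hL.pos _, fun j _ hadj => hL.indep _ _ hadj⟩, ?_⟩
    rintro k ⟨hk1, hk2⟩
    by_contra hlt
    push Not at hlt
    obtain ⟨w, hw1, hw2⟩ := hL.low (e i) k hk1 hlt
    obtain ⟨j, rfl⟩ := e.surjective w
    have hji : j < i := by
      by_contra hij
      push Not at hij
      have := hmono hij
      simp only [Function.comp_apply] at this hlt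
      omega
    exact hk2 j hji hw1 hw2
  have hsub : (Set.Icc 1 (L v)) ⊆ Set.range (L ∘ e) := by
    intro k hk
    rcases Nat.lt_or_ge k (L v) with h | h
    · obtain ⟨w, -, hw⟩ := hL.low v k hk.1 h
      exact ⟨e.symm w, by simpa using hw⟩
    · have : k = L v := le_antisymm hk.2 h
      exact ⟨e.symm v, by simp [this]⟩
  have hcard : L v ≤ (Set.range (L ∘ e)).ncard := by
    calc L v = (Set.Icc 1 (L v)).ncard := by
            rw [Set.ncard_eq_toFinset_card']; simp
      _ ≤ _ := Set.ncard_le_ncard hsub (Set.finite_range _)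
  exact hcard.trans (le_csSup (chiFF_bdd G) ⟨e, _, hFF, rfl⟩)

/-! ### chordal graphs -/

lemma chordal_of_rank {V : Type} {G : SimpleGraph V} (r : V → ℕ)
    (h : ∀ v x y, G.Adj v x → G.Adj v y → x ≠ y → r v ≤ r x → r v ≤ r y → G.Adj x y) :
    IsChordal G := by
  intro l hl f hf
  obtain ⟨l, rfl⟩ : ∃ q, l = q + 4 := ⟨l - 4, by omega⟩
  obtain ⟨i, hi⟩ := Finite.exists_min (fun i => r (f i))
  have h1 : (SimpleGraph.cycleGraph (l + 4)).Adj i (i + 1) := by
    rw [SimpleGraph.cycleGraph_adj]
    right
    abel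
  have h2 : (SimpleGraph.cycleGraph (l + 4)).Adj i (i - 1) := by
    rw [SimpleGraph.cycleGraph_adj]
    left
    abel
  have h1ne : (1 : Fin (l + 4)) ≠ 0 := by
    intro h
    have := congrArg Fin.val h
    simp at this
  have h2ne : (1 + 1 : Fin (l + 4)) ≠ 0 := by
    intro h
    have := congrArg Fin.val h
    rw [Fin.val_add] at this
    simp only [Fin.val_one', Fin.val_zero] at this
    rw [Nat.mod_eq_of_lt (show 1 < l + 4 by omega), Nat.mod_eq_of_lt (by omega)] at this
    omega
  have h3ne : (1 + 1 + 1 : Fin (l + 4)) ≠ 0 := by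
    intro h
    have := congrArg Fin.val h
    rw [Fin.val_add, Fin.val_add] at this
    simp only [Fin.val_one', Fin.val_zero] at this
    rw [Nat.mod_eq_of_lt (show 1 < l + 4 by omega), Nat.mod_eq_of_lt (show 1 + 1 < l + 4 by omega),
      Nat.mod_eq_of_lt (by omega)] at this
    omega
  have hne : i + 1 ≠ i - 1 := by
    intro h
    apply h2ne
    have : (i + 1) - (i - 1) = 0 := sub_eq_zero.mpr h
    rw [← this]; abel
  refine ⟨i + 1, i - 1, hne, ?_, ?_⟩
  · rw [SimpleGraph.cycleGraph_adj]
    rintro (h | h)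
    · apply h1ne
      have : (i + 1) - (i - 1) - 1 = 0 := sub_eq_zero.mpr h
      rw [← this]; abel
    · apply h3ne
      have : (i - 1) - (i + 1) - 1 = 0 := sub_eq_zero.mpr h
      have h4 : -((i - 1) - (i + 1) - 1) = 0 := by rw [this, neg_zero]
      rw [← h4]; abel
  · exact h (f i) _ _ (f.map_adj h1) (f.map_adj h2) (fun hh => hne (hf hh)) (hi _) (hi _)

/-! ### the binomial tree -/

variable {d m k p : ℕ}

/-- `T` is a child of `S`. -/
def Child (S T : Finset (Fin d)) : Prop := ∃ i, (∀ j ∈ S, i < j) ∧ T = insert i S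

lemma Child.card {S T : Finset (Fin d)} (h : Child S T) : T.card = S.card + 1 := by
  obtain ⟨i, hi, rfl⟩ := h
  rw [Finset.card_insert_of_notMem]
  intro h
  exact lt_irrefl _ (hi i h)

lemma Child.unique {S S' T : Finset (Fin d)} (h : Child S T) (h' : Child S' T) : S = S' := by
  obtain ⟨i, hi, rfl⟩ := h
  obtain ⟨i', hi', h2⟩ := h'
  have hi0 : i ∉ S := fun h => lt_irrefl _ (hi i h)
  have hi0' : i' ∉ S' := fun h => lt_irrefl _ (hi' i' h)
  have e : i = i' := by
    have a : i ∈ insert i' S' := by rw [← h2]; exact Finset.mem_insert_self _ _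
    have b : i' ∈ insert i S := by rw [h2]; exact Finset.mem_insert_self _ _
    rw [Finset.mem_insert] at a b
    rcases a with a | a
    · exact a
    · rcases b with b | b
      · exact b.symm
      · exact absurd (hi' i a) (not_lt.mpr (hi i' b).le)
  subst e
  have h3 := congrArg (fun s => Finset.erase s i) h2
  simpa [Finset.erase_insert hi0, Finset.erase_insert hi0'] using h3

/-- level in the tree -/
noncomputable def lev (S : Finset (Fin d)) : ℕ :=
  if h : S.Nonempty then ((S.min' h : Fin d) : ℕ) else d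

lemma lev_lt {S : Finset (Fin d)} {i : Fin d} (h : (i : ℕ) < lev S) : ∀ j ∈ S, i < j := by
  intro j hj
  have hS : S.Nonempty := ⟨j, hj⟩
  rw [lev, dif_pos hS] at h
  exact lt_of_lt_of_le h (S.min'_le j hj)

lemma lev_le (S : Finset (Fin d)) : lev S ≤ d := by
  unfold lev
  split_ifs
  · exact (Fin.is_lt _).le
  · exact le_rfl

lemma lt_lev {S : Finset (Fin d)} {i : Fin d} (h : ∀ j ∈ S, i < j) : (i : ℕ) < lev S := by
  unfold lev
  split_ifs with hS
  · exact h _ (S.min'_mem hS)
  · exact i.2

lemma lev_insert {S : Finset (Fin d)} {i : Fin d} (h : ∀ j ∈ S, i < j) :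
    lev (insert i S) = i := by
  unfold lev
  rw [dif_pos (Finset.insert_nonempty i S)]
  congr 1
  apply le_antisymm
  · exact Finset.min'_le _ _ (Finset.mem_insert_self _ _)
  · apply Finset.le_min'
    intro j hj
    rw [Finset.mem_insert] at hj
    rcases hj with rfl | hj
    · exact le_rfl
    · exact (h j hj).le

/-- The vertices. -/
abbrev Vt (d m k p : ℕ) : Type := (Finset (Fin d) × Fin m) ⊕ Fin k ⊕ Fin p

/-- The adjacency relation. -/
def Rel : Vt d m k p → Vt d m k p → Prop
  | .inl (S, a), .inl (T, b) => Child S T ∨ Child T S ∨ (S = T ∧ a ≠ b)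
  | .inr (.inl a), .inr (.inl b) => a ≠ b
  | _, _ => False

/-- The graph. -/
def gr (d m k p : ℕ) : SimpleGraph (Vt d m k p) where
  Adj := Rel
  symm := ⟨by
    rintro (⟨S, a⟩ | a | a) (⟨T, b⟩ | b | b) h <;> simp only [Rel] at h ⊢
    · rcases h with h | h | ⟨h1, h2⟩
      · exact Or.inr (Or.inl h)
      · exact Or.inl h
      · exact Or.inr (Or.inr ⟨h1.symm, h2.symm⟩)
    · exact h.symm⟩
  loopless := ⟨by
    rintro (⟨S, a⟩ | a | a) h <;> simp only [Rel] at h
    · rcases h with h | h | ⟨h1, h2⟩
      · have := h.card; omega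
      · have := h.card; omega
      · exact h2 rfl
    · exact h rfl⟩

/-- The wall. -/
noncomputable def wall : Vt d m k p → ℕ
  | .inl (S, a) => m * lev S + a + 1
  | .inr (.inl a) => a + 1
  | .inr (.inr _) => 1

lemma lev_mul_lt {S T : Finset (Fin d)} (h : Child S T) (a b : Fin m) :
    m * lev T + b + 1 < m * lev S + a + 1 := by
  obtain ⟨i, hi, rfl⟩ := h
  rw [lev_insert hi]
  have h1 := lt_lev hi
  have h2 : m * (i + 1 : ℕ) ≤ m * lev S := Nat.mul_le_mul_left _ h1
  have h3 := b.2
  have h4 : m * (i + 1 : ℕ) = m * i + m := by ring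
  omega

lemma isWall : IsWall (gr d m k p) wall where
  pos := by
    rintro (⟨S, a⟩ | a | a) <;> simp [wall]
  indep := by
    rintro (⟨S, a⟩ | a | a) (⟨T, b⟩ | b | b) h <;> simp only [gr, Rel] at h <;>
      simp only [wall]
    · rcases h with h | h | ⟨h1, h2⟩
      · have := lev_mul_lt h a b; omega
      · have := lev_mul_lt h b a; omega
      · subst h1
        intro h3
        apply h2
        apply Fin.ext
        omega
    · intro h3
      apply h
      apply Fin.ext
      omega
  low := by
    rintro (⟨S, a⟩ | a | a) q hq1 hq2 <;> simp only [wall] at hq2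
    · obtain ⟨q, rfl⟩ : ∃ t, q = t + 1 := ⟨q - 1, by omega⟩
      have hm : 0 < m := lt_of_le_of_lt (Nat.zero_le _) a.2
      have hmod : q % m < m := Nat.mod_lt _ hm
      have hdiv : m * (q / m) + q % m = q := Nat.div_add_mod q m
      rcases Nat.lt_or_ge (q / m) (lev S) with h | h
      · have hd : q / m < d := lt_of_lt_of_le h (lev_le S)
        have hlt := lev_lt (S := S) (i := ⟨q / m, hd⟩) h
        refine ⟨.inl (insert ⟨q / m, hd⟩ S, ⟨q % m, hmod⟩), ?_, ?_⟩
        · exact Or.inr (Or.inl ⟨_, hlt, rfl⟩)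
        · simp only [wall]
          rw [lev_insert hlt]
          simp only
          omega
      · have h1 : m * lev S ≤ m * (q / m) := Nat.mul_le_mul_left _ h
        have h2 : q / m = lev S := by
          by_contra hne
          have h3 : lev S + 1 ≤ q / m := by omega
          have h4 : m * (lev S + 1) ≤ m * (q / m) := Nat.mul_le_mul_left _ h3
          have h5 : m * (lev S + 1) = m * lev S + m := by ring
          have := a.2
          omega
        refine ⟨.inl (S, ⟨q % m, hmod⟩), ?_, ?_⟩
        · refine Or.inr (Or.inr ⟨rfl, ?_⟩)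
          intro h3
          have h4 : q % m = a := congrArg Fin.val h3
          rw [h2] at hdiv
          omega
        · simp only [wall]
          rw [← h2]
          omega
    · refine ⟨.inr (.inl ⟨q - 1, by have := a.2; omega⟩), ?_, ?_⟩
      · intro h3
        have := congrArg Fin.val h3
        simp only at this
        omega
      · simp only [wall]
        omega
    · omega

lemma chordal_gr : IsChordal (gr d m k p) := by
  apply chordal_of_rank (fun v => match v with
    | .inl (S, _) => d - S.card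
    | _ => 0)
  rintro (⟨S, a⟩ | a | a) (⟨T, b⟩ | b | b) (⟨U, c⟩ | c | c) h1 h2 hne hr1 hr2 <;>
    simp only [gr, Rel] at h1 h2 ⊢
  · simp only at hr1 hr2
    have hS : S.card ≤ d := by simpa using S.card_le_univ
    have hT : T.card ≤ d := by simpa using T.card_le_univ
    have hU : U.card ≤ d := by simpa using U.card_le_univ
    have key : ∀ {T : Finset (Fin d)} {b : Fin m},
        (Child S T ∨ Child T S ∨ (S = T ∧ a ≠ b)) → T.card ≤ d → d - S.card ≤ d - T.card →
        (Child T S ∨ S = T) := by
      intro T b h hT hr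
      rcases h with h | h | h
      · have := h.card
        omega
      · exact Or.inl h
      · exact Or.inr h.1
    have k1 := key h1 hT hr1
    have k2 := key h2 hU hr2
    rcases k1 with k1 | rfl <;> rcases k2 with k2 | rfl
    · have := k1.unique k2
      subst this
      refine Or.inr (Or.inr ⟨rfl, ?_⟩)
      rintro rfl
      exact hne rfl
    · exact Or.inl k1
    · exact Or.inr (Or.inl k2)
    · refine Or.inr (Or.inr ⟨rfl, ?_⟩)
      rintro rfl
      exact hne rfl
  · rintro rfl
    exact hne rfl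

lemma colorable_gr (hk : 2 ≤ k) (hm : 2 * m ≤ k) : (gr d m k p).Colorable k := by
  refine ⟨SimpleGraph.Coloring.mk (fun v => match v with
    | .inl (S, a) => (⟨m * (S.card % 2) + a, by
        have h1 := a.2
        have h2 : S.card % 2 < 2 := Nat.mod_lt _ (by norm_num)
        have h3 : m * (S.card % 2) ≤ m * 1 := Nat.mul_le_mul_left _ (by omega)
        omega⟩ : Fin k)
    | .inr (.inl a) => a
    | .inr (.inr _) => ⟨0, by omega⟩) ?_⟩
  rintro (⟨S, a⟩ | a | a) (⟨T, b⟩ | b | b) h <;> simp only [gr, Rel] at h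
  · simp only
    intro h3
    have h4 := congrArg Fin.val h3
    simp only at h4
    have ha := a.2
    have hb := b.2
    have hch : ∀ {S T : Finset (Fin d)} {a b : Fin m}, Child S T →
        m * (S.card % 2) + a = m * (T.card % 2) + b → False := by
      intro S T a b h h4
      have hc := h.card
      have ha := a.2
      have hb := b.2
      rcases Nat.mod_two_eq_zero_or_one S.card with h0 | h0
      · have h1 : T.card % 2 = 1 := by omega
        rw [h0, h1] at h4
        omega
      · have h1 : T.card % 2 = 0 := by omega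
        rw [h0, h1] at h4
        omega
    rcases h with h | h | ⟨h1, h2⟩
    · exact hch h h4
    · exact hch h h4.symm
    · subst h1
      apply h2
      apply Fin.ext
      omega
  · exact h

lemma card_Vt : Fintype.card (Vt d m k p) = 2 ^ d * m + k + p := by
  simp [Vt]
  ring

lemma cliqueNum_gr (hk : 2 ≤ k) (hm : 2 * m ≤ k) : (gr d m k p).cliqueNum = k := by
  classical
  apply le_antisymm
  · by_contra hlt
    push Not at hlt
    obtain ⟨s, hs⟩ := SimpleGraph.exists_isNClique_cliqueNum (G := gr d m k p)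
    exact (colorable_gr hk hm).cliqueFree hlt s hs
  · have hcl : (gr d m k p).IsNClique k
        ((Finset.univ : Finset (Fin k)).map
          ⟨fun a => (Sum.inr (Sum.inl a) : Vt d m k p), fun a b h => by simpa using h⟩) := by
      rw [SimpleGraph.isNClique_iff]
      refine ⟨?_, by simp⟩
      intro x hx y hy hxy
      simp only [Finset.coe_map, Finset.coe_univ, Set.image_univ, Set.mem_range] at hx hy
      obtain ⟨a, rfl⟩ := hx
      obtain ⟨b, rfl⟩ := hy
      show a ≠ b
      rintro rfl
      exact hxy rfl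
    have := hcl.isClique.card_le_cliqueNum
    rwa [hcl.card_eq] at this

/-- Transport to `Fin n`. -/
lemma exists_fin {V : Type} [Fintype V] {n : ℕ} (hn : Fintype.card V = n) (G : SimpleGraph V)
    (hG : IsChordal G) (L : V → ℕ) (hL : IsWall G L) (v : V) :
    ∃ H : SimpleGraph (Fin n), IsChordal H ∧ H.cliqueNum = G.cliqueNum ∧ L v ≤ chiFF H := by
  classical
  let e : V ≃ Fin n := Fintype.equivFinOfCardEq hn
  let H : SimpleGraph (Fin n) := G.comap e.symm
  let φ : H ≃g G := ⟨e.symm, by intro a b; rfl⟩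
  refine ⟨H, ?_, ?_, ?_⟩
  · intro l hl f hf
    obtain ⟨i, j, h1, h2, h3⟩ := hG l hl (φ.toHom.comp f) (φ.injective.comp hf)
    exact ⟨i, j, h1, h2, h3⟩
  · apply le_antisymm
    · obtain ⟨s, hs⟩ := SimpleGraph.exists_isNClique_cliqueNum (G := H)
      have h2 : G.IsNClique H.cliqueNum (s.map φ.toEquiv.toEmbedding) := by
        have := hs.map (f := φ.toEquiv.toEmbedding)
        refine SimpleGraph.IsNClique.mono ?_ this
        rintro a b ⟨-, x, y, hxy, rfl, rfl⟩
        exact φ.map_rel_iff.mpr hxy
      have := h2.isClique.card_le_cliqueNum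
      rwa [h2.card_eq] at this
    · obtain ⟨s, hs⟩ := SimpleGraph.exists_isNClique_cliqueNum (G := G)
      have h2 : H.IsNClique G.cliqueNum (s.map φ.symm.toEquiv.toEmbedding) := by
        have := hs.map (f := φ.symm.toEquiv.toEmbedding)
        refine SimpleGraph.IsNClique.mono ?_ this
        rintro a b ⟨-, x, y, hxy, rfl, rfl⟩
        exact φ.symm.map_rel_iff.mpr hxy
      have := h2.isClique.card_le_cliqueNum
      rwa [h2.card_eq] at this
  · have hW : IsWall H (L ∘ e.symm) := by
      refine ⟨fun v => hL.pos _, fun u v h => hL.indep _ _ h, fun v k h1 h2 => ?_⟩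
      obtain ⟨w, hw1, hw2⟩ := hL.low (e.symm v) k h1 h2
      refine ⟨e w, ?_, by simpa using hw2⟩
      show G.Adj (e.symm (e w)) (e.symm v)
      simpa using hw1
    have := wall_le hW (e v)
    simpa using this

lemma main_ge (k : ℕ) (hk : 2 ≤ k) (n : ℕ) (hn : k ^ 2 ≤ n) :
    ∃ G : SimpleGraph (Fin n), IsChordal G ∧ G.cliqueNum = k ∧
      (1 / 6 : ℝ) * k * Real.log n ≤ chiFF G := by
  obtain ⟨m, hm0, hm1, hm2⟩ : ∃ m, 1 ≤ m ∧ 2 * m ≤ k ∧ k ≤ 3 * m :=
    ⟨k / 2, by omega, by omega, by omega⟩
  have hnk : k + k * m ≤ n := by nlinarith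
  set q := (n - k) / m with hq
  have hqk : k ≤ q := by
    rw [hq, Nat.le_div_iff_mul_le hm0]
    omega
  set d := Nat.log 2 q with hd
  have hd1 : 2 ^ d ≤ q := Nat.pow_log_le_self 2 (by omega)
  have hd2 : q < 2 ^ (d + 1) := Nat.lt_pow_succ_log_self (by norm_num) q
  have hle : 2 ^ d * m + k ≤ n := by
    have h1 : 2 ^ d * m ≤ q * m := Nat.mul_le_mul_right _ hd1
    have h2 : q * m ≤ n - k := Nat.div_mul_le_self _ _
    omega
  have hlt : n < 2 ^ (d + 1) * m + k := by
    have h1 : n - k < (q + 1) * m := by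
      have := Nat.lt_mul_div_succ (n - k) hm0
      rw [← hq] at this
      calc n - k < m * (q + 1) := this
        _ = (q + 1) * m := Nat.mul_comm _ _
    have h2 : (q + 1) * m ≤ 2 ^ (d + 1) * m := Nat.mul_le_mul_right _ hd2
    omega
  have hnbound : n ≤ (2 ^ (d + 1)) * (2 ^ (d + 1)) := by
    have h1 : k ≤ 2 ^ (d + 1) := by omega
    have h2 : 2 ^ (d + 1) * m + k ≤ 2 ^ (d + 1) * (m + 1) := by
      have : 2 ^ (d + 1) * (m + 1) = 2 ^ (d + 1) * m + 2 ^ (d + 1) := by ring
      omega
    have h3 : 2 ^ (d + 1) * (m + 1) ≤ 2 ^ (d + 1) * 2 ^ (d + 1) :=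
      Nat.mul_le_mul_left _ (by omega)
    omega
  obtain ⟨p, hp⟩ : ∃ p, n = 2 ^ d * m + k + p := ⟨n - (2 ^ d * m + k), by omega⟩
  obtain ⟨G, hG1, hG2, hG3⟩ := exists_fin (V := Vt d m k p) (n := n) (by rw [card_Vt]; exact hp.symm)
    (gr d m k p) chordal_gr wall isWall (.inl (∅, ⟨m - 1, by omega⟩))
  refine ⟨G, hG1, by rw [hG2, cliqueNum_gr hk hm1], ?_⟩
  have hw : wall (.inl (∅, ⟨m - 1, by omega⟩) : Vt d m k p) = m * (d + 1) := by
    simp only [wall, lev]
    rw [dif_neg (by simp)]
    have : m * (d + 1) = m * d + m := by ring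
    omega
  rw [hw] at hG3
  have hn0 : 0 < n := by nlinarith
  have hlog : Real.log n ≤ 2 * (d + 1) * Real.log 2 := by
    have h1 : (n : ℝ) ≤ ((2 : ℝ) ^ (2 * (d + 1))) := by
      have : (n : ℝ) ≤ ((2 ^ (d + 1) * 2 ^ (d + 1) : ℕ) : ℝ) := by exact_mod_cast hnbound
      refine this.trans (le_of_eq ?_)
      push_cast
      ring
    have h2 := Real.log_le_log (by exact_mod_cast hn0) h1
    rw [Real.log_pow] at h2
    push_cast at h2
    exact h2
  have hlog2 : Real.log 2 ≤ 1 := by
    have := Real.log_two_lt_d9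
    linarith
  have hlog2' : 0 ≤ Real.log 2 := Real.log_nonneg (by norm_num)
  have hk3 : (k : ℝ) ≤ 3 * m := by exact_mod_cast hm2
  have hG3' : ((m : ℝ) * (d + 1)) ≤ chiFF G := by exact_mod_cast hG3
  calc (1 / 6 : ℝ) * k * Real.log n ≤ (1 / 6 : ℝ) * k * (2 * (d + 1) * Real.log 2) := by
        gcongr
    _ ≤ (1 / 6 : ℝ) * (3 * m) * (2 * (d + 1) * 1) := by
        gcongr
    _ = m * (d + 1) := by ring
    _ ≤ chiFF G := hG3'

lemma one_case {n : ℕ} (G : SimpleGraph (Fin n)) (hG : G.cliqueNum = 1) : chiFF G = 1 := by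
  classical
  have hbot : ∀ a b, ¬ G.Adj a b := by
    intro a b hab
    have hcl : G.IsNClique 2 {a, b} := by
      rw [SimpleGraph.isNClique_iff]
      constructor
      · rw [Finset.coe_pair]
        rw [SimpleGraph.isClique_pair]
        exact fun _ => hab
      · exact Finset.card_pair hab.ne
    have := hcl.isClique.card_le_cliqueNum
    rw [hcl.card_eq] at this
    omega
  have hne : Nonempty (Fin n) := by
    obtain ⟨s, hs⟩ := SimpleGraph.exists_isNClique_cliqueNum (G := G)
    have hc := hs.card_eq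
    rw [hG] at hc
    obtain ⟨a, -⟩ := Finset.card_eq_one.mp hc
    exact ⟨a⟩
  have hset : {t : ℕ | ∃ (e : Equiv.Perm (Fin n)) (c : Fin n → ℕ),
      IsFirstFit G e c ∧ t = (Set.range c).ncard} = {1} := by
    ext t
    simp only [Set.mem_ofPred_eq, Set.mem_singleton_iff]
    constructor
    · rintro ⟨e, c, h, rfl⟩
      have hc : ∀ i, c i = 1 := by
        intro i
        apply le_antisymm
        · exact (h i).2 ⟨le_rfl, fun j _ hj => absurd hj (hbot _ _)⟩
        · exact (h i).1.1
      have : Set.range c = {1} := by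
        ext x
        constructor
        · rintro ⟨i, rfl⟩
          exact hc i
        · rintro rfl
          exact ⟨hne.some, hc _⟩
      rw [this, Set.ncard_singleton]
    · rintro rfl
      refine ⟨1, fun _ => 1, ?_, ?_⟩
      · intro i
        refine ⟨⟨le_rfl, fun j _ hj => absurd hj (hbot _ _)⟩, fun k hk => hk.1⟩
      · rw [Set.range_const, Set.ncard_singleton]
  rw [chiFF, hset, csSup_singleton]

end Pool.Agent.N467.FFChordal
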